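import Pool.Agent.H349R2.Tet.Final3

/-!
# Tetrahedra are not even local minimisers of the lattice packing density

For every tetrahedron `Δ` in `ℝ³` the lattice packing density is `18/49` (Groemer, Hoylman), and for
every small `η > 0` there is a convex body `A ⊆ Δ` that contains a homothetic copy of `Δ` with ratio
`1 - η` and has lattice packing density at most `(18/49)(1 - η/100)`.
-/

namespace Pool.Agent.Results.MP_3d065d_co.TetrahedronNotMinimal

open Pool.Agent.H349R2.Tet

theorem result (p : Fin 4 → V) (hp : AffineIndependent ℝ p) :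
    deltaL (convexHull ℝ (Set.range p)) = 18 / 49 ∧
    ∀ η : ℝ, 0 < η → η ≤ 1 / 10 ^ 15 → ∃ A : Set V,
      IsCompact A ∧ Convex ℝ A ∧ (interior A).Nonempty ∧
      A ⊆ convexHull ℝ (Set.range p) ∧
      (∃ g : V, ∀ x ∈ convexHull ℝ (Set.range p), g + (1 - η) • (x - g) ∈ A) ∧
      deltaL A ≤ ENNReal.ofReal (18 / 49 * (1 - η / 100)) :=
  ⟨deltaL_tetra p hp, fun η h0 h1 => near_tetra p hp η h0 h1⟩

end Pool.Agent.Results.MP_3d065d_co.TetrahedronNotMinimal
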